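import Pool.Agent.P.MP_b4ec01_an.Pw.Comb

/-! Combinatorial core for nested budgets: strong steps, profiles, arms and windows. -/

open Finset Function

namespace Pool.Agent.P.MP_b4ec01_an.Nb

open Pw

universe u u' v v' w

variable {α : Type u} {β : Type u'} {Q : Type v} [Fintype Q] [DecidableEq Q] [PartialOrder Q]
  [DecidableLE Q]

theorem sum_blocks {γ : Type*} (s : Finset γ) (b : γ → Q) (v : γ → ℝ) (j : Q) :
    ∑ i with i ≤ j, ∑ d ∈ s, (if b d = i then v d else 0) =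
      ∑ d ∈ s, if b d ≤ j then v d else 0 := by
  rw [sum_comm]
  refine sum_congr rfl fun d _ => ?_
  rw [sum_ite_eq]
  simp

variable (bl : β → Q) (cc : Q → ℝ)

/-- The mass of `x` on the part of `F` that lies in the blocks below `j`. -/
def ms (j : Q) (F : Finset β) (x : β → ℝ) : ℝ := ∑ z ∈ F, if bl z ≤ j then |x z| else 0

/-- All budgets are respected. -/
def InK (x : β → ℝ) : Prop := ∀ (j : Q) (F : Finset β), ms bl j F x ≤ cc j

omit [Fintype Q] [DecidableEq Q] in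
theorem ms_mono (j : Q) {F F' : Finset β} (h : F ⊆ F') (x : β → ℝ) :
    ms bl j F x ≤ ms bl j F' x :=
  sum_le_sum_of_subset_of_nonneg h fun _ _ _ => by split_ifs <;> positivity

omit [Fintype Q] [DecidableEq Q] in
theorem ms_nonneg (j : Q) (F : Finset β) (x : β → ℝ) : 0 ≤ ms bl j F x :=
  sum_nonneg fun _ _ => by split_ifs <;> positivity

theorem ms_eq (j : Q) (F : Finset β) (x : β → ℝ) :
    ms bl j F x = ∑ i with i ≤ j, mass bl i F x := (sum_blocks F bl (fun z => |x z|) j).symm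

section App

variable {Θ : Type v'} (D : Θ → Type) (H : ∀ θ, (D θ → ℝ) → ℝ) (bθ : ∀ θ, D θ → Q)

/-- `f` is within `1/8` of the model function `H θ` of the coordinates `e`. -/
def App (f : (β → ℝ) → ℝ) (θ : Θ) (e : D θ → β) : Prop :=
  Injective e ∧ (∀ d, bl (e d) = bθ θ d) ∧ ∀ x, InK bl cc x → |f x - H θ (x ∘ e)| ≤ 1 / 8

variable [∀ θ, Fintype (D θ)]

/-- A good step eats a fixed share of one budget and has a large fresh coordinate below it. -/
theorem step (G : α → (β → ℝ) → ℝ) (P : α → Prop) (M : ℝ) (N : ℕ) (hN : 8 * M < N) (hN0 : 0 < N)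
    (hb : ∀ (A : Finset α) x, (∀ a ∈ A, P a) → InK bl cc x → ∑ a ∈ A, |G a x| ≤ M)
    (a : α) (θ : Θ) (e : D θ → β) (ρ : Finset (D θ)) (R R' : Finset β) (hRR : R ⊆ R')
    (happ : App bl cc D H bθ (G a) θ e) (h1 : ∀ d, e d ∈ R') (h2 : ∀ d ∈ ρ, e d ∈ R)
    (h3 : ∀ d, d ∉ ρ → e d ∉ R)
    (hfr : Fr (fun a' e' => P a' ∧ App bl cc D H bθ (G a') θ e') ρ e) (η : ℝ) (hη0 : 0 < η)
    (hη : ∀ y y' : D θ → ℝ, (∀ d, |y d - y' d| < η) → |H θ y - H θ y'| ≤ 1 / 8)
    (x : β → ℝ) (hx : InK bl cc x) (hg : 1 / 2 ≤ |G a x|) :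
    ∃ j, cc j - ms bl j R' x ≤ (1 - 1 / N) * (cc j - ms bl j R x) ∧
      ∃ d, d ∉ ρ ∧ bl (e d) ≤ j ∧ η ≤ |x (e d)| := by
  classical
  by_contra hcon
  push Not at hcon
  have hN' : (0 : ℝ) < N := by exact_mod_cast hN0
  set y : β → ℝ := fun z => if z ∉ R ∧ |x z| < η then 0 else x z with hy
  have hy1 : ∀ z, |y z| ≤ |x z| := fun z => by simp only [hy]; split_ifs <;> simp
  have hy2 : ∀ z, |x z - y z| < η := fun z => by
    simp only [hy]; split_ifs with h
    · simpa using h.2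
    · simpa using hη0
  obtain ⟨x', S, A, -, h0, -, hsum, hcard, hA⟩ := dup bl ρ e R y h2 _ hfr
    (fun t e' h => ⟨h.2.1, fun d => (h.2.2.1 d).trans (happ.2.1 d).symm⟩) N
  have hx' : InK bl cc x' := by
    intro j F
    have a1 : ms bl j F x' ≤ ms bl j S x' := by
      have : ms bl j F x' = ms bl j (F ∩ S) x' := by
        refine (sum_subset inter_subset_left fun z hz hz' => ?_).symm
        rw [h0 z (fun h => hz' (mem_inter.2 ⟨hz, h⟩)), abs_zero, ite_self]
      rw [this]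
      exact ms_mono bl j inter_subset_right _
    have a5 : ms bl j S x' ≤ ms bl j R x +
        N * ∑ d ∈ ρᶜ, if bl (e d) ≤ j then |y (e d)| else 0 := by
      have b1 : ms bl j R x = ms bl j R y := sum_congr rfl fun z hz => by simp [hy, hz]
      rw [b1, ms_eq, ms_eq, ← sum_blocks, mul_sum, ← sum_add_distrib]
      exact sum_le_sum fun i _ => hsum i
    by_cases hj : cc j - ms bl j R' x ≤ (1 - 1 / N) * (cc j - ms bl j R x)
    · have : (∑ d ∈ ρᶜ, if bl (e d) ≤ j then |y (e d)| else 0) = 0 :=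
        sum_eq_zero fun d hd => by
          have hd' : d ∉ ρ := by simpa using hd
          split_ifs with h
          · simp [hy, h3 d hd', hcon j hj d hd' h]
          · rfl
      rw [this, mul_zero, add_zero] at a5
      exact a1.trans (a5.trans (hx j R))
    have a2 : (∑ d ∈ ρᶜ, if bl (e d) ≤ j then |y (e d)| else 0) ≤
        ms bl j R' x - ms bl j R x := by
      refine (sum_le_sum (g := fun d => if bl (e d) ≤ j then |x (e d)| else 0)
        fun d _ => by split_ifs; exacts [hy1 _, le_rfl]).trans ?_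
      unfold ms
      rw [← sum_sdiff hRR, add_sub_cancel_right, ← sum_image
        (f := fun z => if bl z ≤ j then |x z| else 0) (fun a _ b _ h => happ.1 h)]
      refine sum_le_sum_of_subset_of_nonneg (fun z hz => ?_) fun _ _ _ => by
        split_ifs <;> positivity
      obtain ⟨d, hd, rfl⟩ := mem_image.1 hz
      exact mem_sdiff.2 ⟨h1 d, h3 d (by simpa using hd)⟩
    have a4 : (N : ℝ) * (ms bl j R' x - ms bl j R x) ≤ cc j - ms bl j R x := by
      have : (N : ℝ) * ((1 - 1 / N) * (cc j - ms bl j R x)) =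
          (N - 1) * (cc j - ms bl j R x) := by field_simp
      nlinarith [mul_le_mul_of_nonneg_left (not_le.1 hj).le hN'.le]
    nlinarith [mul_le_mul_of_nonneg_left a2 hN'.le]
  have hlow : ∀ t ∈ A, (1 / 8 : ℝ) ≤ |G t x'| := by
    intro t ht
    obtain ⟨e', ⟨-, hq⟩, -, h5⟩ := hA t ht
    have b1 := happ.2.2 x hx
    have b2 := hq.2.2 x' hx'
    have b3 : x' ∘ e' = y ∘ e := funext h5
    rw [b3] at b2
    have b4 := hη (x ∘ e) (y ∘ e) fun d => hy2 _
    rw [abs_le] at b1 b2 b4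
    rcases le_abs.1 hg with h | h
    · exact le_abs.2 (Or.inl (by linarith [b1.2, b2.1, b4.2]))
    · exact le_abs.2 (Or.inr (by linarith [b1.1, b2.2, b4.1]))
  have c1 := card_nsmul_le_sum A _ _ hlow
  have c2 := hb A x' (fun t ht => by obtain ⟨e', ⟨h, -⟩, -⟩ := hA t ht; exact h) hx'
  rw [hcard, nsmul_eq_mul] at c1
  linarith

variable (μ : Θ → ℕ) (G : List α → (β → ℝ) → ℝ)

/-- Below `l` there is an uncountably branching tree whose moduli follow the profile. -/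
def Good : List ℕ → List α → Prop
  | [], _ => True
  | n :: h, l => ¬ Set.Countable
      {a | (∃ θ e, App bl cc D H bθ (G (a :: l)) θ e ∧ μ θ ≤ n) ∧ Good h (a :: l)}

/-- Data of one step of an arm. -/
def StepOK (n : ℕ) (l l' : List α) (R R' Z : Finset β) : Prop :=
  ∃ a, a ∉ l ∧ l' = a :: l ∧ ∃ (θ : Θ) (e : D θ → β) (ρ : Finset (D θ)), μ θ ≤ n ∧
    App bl cc D H bθ (G (a :: l)) θ e ∧ (∀ d, e d ∈ R') ∧ (∀ d ∈ ρ, e d ∈ R) ∧
    (∀ d, d ∉ ρ → e d ∉ R ∧ e d ∉ Z) ∧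
    Fr (fun a' e' => a' ∉ l ∧ App bl cc D H bθ (G (a' :: l)) θ e') ρ e

theorem pigeon {ι : Type*} [Countable ι] {S : Set α} (hS : ¬ S.Countable) (P : ι → α → Prop)
    (h : ∀ a ∈ S, ∃ i, P i a) : ∃ i, ¬ Set.Countable {a | P i a} := by
  by_contra hc
  push Not at hc
  exact hS ((Set.countable_iUnion hc).mono fun a ha => Set.mem_iUnion.2 (h a ha))

omit [Fintype Q] [DecidableEq Q] [∀ θ, Fintype (D θ)] in
theorem good_ext [Uncountable α] (happ : ∀ l, ∃ θ e, App bl cc D H bθ (G l) θ e) (h : List ℕ)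
    (l : List α) (hg : Good bl cc D H bθ μ G h l) :
    ∃ n, Good bl cc D H bθ μ G (h ++ [n]) l := by
  induction h generalizing l with
  | nil =>
    refine pigeon Set.not_countable_univ _ fun a _ => ?_
    obtain ⟨θ, e, he⟩ := happ (a :: l)
    exact ⟨μ θ, ⟨θ, e, he, le_rfl⟩, trivial⟩
  | cons m h ih =>
    refine pigeon hg (fun n a => _ ∧ Good bl cc D H bθ μ G (h ++ [n]) (a :: l)) fun a ha => ?_
    obtain ⟨n, hn⟩ := ih _ ha.2
    exact ⟨n, ha.1, hn⟩

omit [Fintype Q] [DecidableEq Q] [∀ θ, Fintype (D θ)] in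
theorem exists_profile [Uncountable α] (happ : ∀ l, ∃ θ e, App bl cc D H bθ (G l) θ e)
    (l : List α) : ∃ p : ℕ → ℕ, ∀ q, Good bl cc D H bθ μ G ((List.range q).map p) l := by
  choose f hf using fun h : {h // Good bl cc D H bθ μ G h l} =>
    good_ext bl cc D H bθ μ G happ h.1 l h.2
  let L : ℕ → {h // Good bl cc D H bθ μ G h l} := fun q =>
    Nat.rec ⟨[], trivial⟩ (fun _ h => ⟨h.1 ++ [f h], hf h⟩) q
  refine ⟨fun q => f (L q), fun q => ?_⟩
  have : (List.range q).map (fun q => f (L q)) = (L q).1 := by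
    induction q with
    | zero => rfl
    | succ q ih => rw [List.range_succ, List.map_append, ih]; rfl
  rw [this]
  exact (L q).2

omit [Fintype Q] [DecidableEq Q] in
theorem arm [Countable Θ] [DecidableEq β] (h : List ℕ) (l₀ : List α)
    (hg : Good bl cc D H bθ μ G h l₀) :
    ∃ R₀ : Finset β, ∀ Z : Finset β, ∃ (l : ℕ → List α) (R : ℕ → Finset β), l 0 = l₀ ∧
      R 0 = R₀ ∧ (∀ k, R k ⊆ R (k + 1)) ∧ (∀ k, ∀ z ∈ R k, z ∈ Z → z ∈ R₀) ∧
      ∀ k < h.length,
        StepOK bl cc D H bθ μ G (h.getD k 0) (l k) (l (k + 1)) (R k) (R (k + 1)) Z := by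
  classical
  induction h generalizing l₀ with
  | nil =>
    exact ⟨∅, fun Z => ⟨fun _ => l₀, fun _ => ∅, rfl, rfl, fun _ => subset_rfl,
      fun _ _ h _ => h, fun k hk => absurd hk (Nat.not_lt_zero k)⟩⟩
  | cons n h ih =>
    choose! R1 hR1 using ih
    let P : ∀ w : Θ × ℕ, α → (D w.1 ⊕ Fin w.2 → β) → Prop := fun w a e =>
      a ∉ l₀ ∧ App bl cc D H bθ (G (a :: l₀)) w.1 (e ∘ Sum.inl) ∧
        (μ w.1 ≤ n ∧ Good bl cc D H bθ μ G h (a :: l₀)) ∧
        ∀ z ∈ R1 (a :: l₀), ∃ i, e (Sum.inr i) = z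
    have hex : ∃ w, ¬ Set.Countable {a | ∃ e, P w a e} := by
      refine pigeon (S := {a | (∃ θ e, App bl cc D H bθ (G (a :: l₀)) θ e ∧ μ θ ≤ n) ∧
        Good bl cc D H bθ μ G h (a :: l₀)} \ {a | a ∈ l₀}) (fun hc => hg ?_) _ ?_
      · exact (hc.union (List.finite_toSet l₀).countable).mono (Set.subset_sdiff_union _ _)
      · rintro a ⟨⟨⟨θ, e, he, hn⟩, hG⟩, ha⟩
        exact ⟨(θ, (R1 (a :: l₀)).card),
          Sum.elim e fun i => ((R1 (a :: l₀)).equivFin.symm i : β), ha, he, ⟨hn, hG⟩,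
          fun z hz => ⟨(R1 (a :: l₀)).equivFin ⟨z, hz⟩, by simp⟩⟩
    obtain ⟨w, hw⟩ := hex
    obtain ⟨σ, e0, hfr⟩ := exists_fr _ hw
    refine ⟨σ.image e0, fun Z => ?_⟩
    obtain ⟨a, -, e, ⟨ha, hap, ⟨hn, hG⟩, hcov⟩, h1, h2⟩ := hfr (Z ∪ σ.image e0) ∅
    set S : Finset β := σ.image e0 ∪ univ.image e with hS
    obtain ⟨l, R, hl0, hR0, hRm, hRZ, hst⟩ := hR1 (a :: l₀) hG (Z ∪ S)
    have hSZ : ∀ z ∈ S, z ∈ Z → z ∈ σ.image e0 := by
      intro z hz hzZ
      rcases mem_union.1 hz with h | h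
      · exact h
      · obtain ⟨d, -, rfl⟩ := mem_image.1 h
        by_cases hd : d ∈ σ
        · rw [h1 d hd]; exact mem_image_of_mem _ hd
        · exact absurd (mem_union_left _ hzZ) (h2 d hd)
    have hR1S : R1 (a :: l₀) ⊆ S := fun z hz => by
      obtain ⟨i, rfl⟩ := hcov z hz
      exact mem_union_right _ (mem_image_of_mem _ (mem_univ _))
    refine ⟨fun k => Nat.casesOn k l₀ l, fun k => Nat.casesOn k (σ.image e0) fun k => S ∪ R k,
      rfl, rfl, fun k => ?_, fun k => ?_, fun k hk => ?_⟩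
    · cases k with
      | zero => exact subset_union_left.trans subset_union_left
      | succ k => exact union_subset_union_right (hRm k)
    · cases k with
      | zero => exact fun z hz _ => hz
      | succ k =>
        intro z hz hzZ
        rcases mem_union.1 hz with h | h
        · exact hSZ z h hzZ
        · exact hSZ z (hR1S (hRZ k z h (mem_union_left _ hzZ))) hzZ
    · cases k with
      | zero =>
        refine ⟨a, ha, hl0, w.1, e ∘ Sum.inl, univ.filter fun d => Sum.inl d ∈ σ, hn, hap,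
          fun d => mem_union_left _ (mem_union_right _ (mem_image_of_mem _ (mem_univ _))),
          fun d hd => ?_, fun d hd => ?_, fun Z' A => ?_⟩
        · have hd' := (mem_filter.1 hd).2
          show e (Sum.inl d) ∈ σ.image e0
          rw [h1 _ hd']; exact mem_image_of_mem _ hd'
        · have := h2 (Sum.inl d) (by simpa using hd)
          rw [mem_union, not_or] at this
          exact ⟨this.2, this.1⟩
        · obtain ⟨a', ha', e', ⟨b1, b2, -⟩, b3, b4⟩ := hfr Z' A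
          refine ⟨a', ha', e' ∘ Sum.inl, ⟨b1, b2⟩, fun d hd => ?_, fun d hd => ?_⟩
          · have hd' := (mem_filter.1 hd).2
            exact (b3 _ hd').trans (h1 _ hd').symm
          · exact b4 _ (by simpa using hd)
      | succ k =>
        obtain ⟨a', b1, b2, θ, e', ρ, b0, b3, b4, b5, b6, b7⟩ :=
          hst k (Nat.lt_of_succ_lt_succ hk)
        refine ⟨a', b1, b2, θ, e', ρ, b0, b3, fun d => mem_union_right _ (b4 d),
          fun d hd => mem_union_right _ (b5 d hd), fun d hd => ?_, b7⟩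
        have := b6 d hd
        rw [mem_union, not_or] at this
        exact ⟨fun h => (mem_union.1 h).elim this.2.2 this.1, this.2.1⟩

end App

omit [DecidableLE Q] in
/-- Long sequences of kinds contain a forbidden pattern. -/
theorem kinds {τ : Type w} [Finite τ] (hno : ¬ ∃ φ : τ → Q, ∀ s t, φ s ≤ φ t → s = t)
    (P : τ → ℕ → ℕ) : ∃ q, 0 < q ∧ ∀ J : τ → ℕ → Q, ∃ t t' k j, t' ≠ t ∧ k < q ∧ J t' k ≤ j ∧
      P t' k ≤ ((range q).filter fun i => J t i = j).card := by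
  by_contra hc
  push Not at hc
  choose J hJ using fun q => hc (q + 1) q.succ_pos
  have h1 : ∀ t k, ∃ j, ∀ᶠ q in (Filter.hyperfilter ℕ : Filter ℕ), J q t k = j := fun t k =>
    Ultrafilter.eventually_exists_iff.1 (Filter.Eventually.of_forall fun q => ⟨_, rfl⟩)
  choose L hL using h1
  choose φ hφ using fun t => Finite.exists_infinite_fiber (L t)
  refine hno ⟨φ, fun s t hst => ?_⟩
  by_contra hne
  obtain ⟨⟨k, hk⟩⟩ := (hφ s).nonempty
  obtain ⟨A, hA, hcard⟩ := (Set.infinite_coe_iff.1 (hφ t)).exists_subset_card_eq (P s k)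
  have h2 : ∀ n : ℕ, ∀ᶠ q in (Filter.hyperfilter ℕ : Filter ℕ), n < q + 1 := fun n =>
    Nat.hyperfilter_le_atTop ((Filter.eventually_ge_atTop n).mono fun q h => by omega)
  obtain ⟨q, ⟨a1, a2⟩, a3⟩ := (((h2 k).and (hL s k)).and ((Filter.eventually_all_finset A).2
    fun i _ => (h2 i).and (hL t i))).exists
  have := hJ q t s k (φ t) hne a1 (by rw [a2, show L s k = φ s from hk]; exact hst)
  refine absurd (hcard ▸ card_le_card fun i hi => ?_) (not_le.2 this)
  exact mem_filter.2 ⟨mem_range.2 (a3 i hi).1, (a3 i hi).2.trans (hA hi)⟩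

theorem numeric (s : ℕ → ℝ) (p : ℕ → Prop) [DecidablePred p] (r : ℝ) (hr : 0 ≤ r) (q : ℕ)
    (hm : ∀ k, s (k + 1) ≤ s k) (hs : ∀ k < q, p k → s (k + 1) ≤ r * s k) :
    s q ≤ r ^ ((range q).filter p).card * s 0 := by
  induction q with
  | zero => simp
  | succ q ih =>
    have ih' := ih fun k hk => hs k (Nat.lt_succ_of_lt hk)
    rw [range_add_one, filter_insert]
    split_ifs with h
    · rw [card_insert_of_notMem (by simp), pow_succ]
      nlinarith [hs q q.lt_succ_self h, mul_le_mul_of_nonneg_left ih' hr]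
    · exact (hm q).trans ih'

section Win

variable {Θ : Type v'} (D : Θ → Type) (H : ∀ θ, (D θ → ℝ) → ℝ) (bθ : ∀ θ, D θ → Q)
  [∀ θ, Fintype (D θ)] [Countable Θ] [Uncountable α] {τ : Type w} [Fintype τ] [DecidableEq τ]

theorem window (hno : ¬ ∃ φ : τ → Q, ∀ s t, φ s ≤ φ t → s = t)
    (hH : ∀ θ, ∃ η : ℝ, 0 < η ∧ ∀ y y' : D θ → ℝ, (∀ d, |y d - y' d| < η) →
      |H θ y - H θ y'| ≤ 1 / 8)
    (g : (τ → List α) → (β → ℝ) → ℝ) (happ : ∀ c, ∃ θ e, App bl cc D H bθ (g c) θ e) (M : ℝ)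
    (N : ℕ) (hN : 8 * M < N) (hN0 : 0 < N)
    (hb : ∀ c t l (A : Finset α) x, (∀ a ∈ A, a ∉ l) → InK bl cc x →
      ∑ a ∈ A, |g (update c t (a :: l)) x| ≤ M) (c : τ → List α) :
    ∃ c' : τ → List α, (∀ t, c t <:+ c' t) ∧ (∀ t, (c t).Nodup → (c' t).Nodup) ∧
      ∀ x, InK bl cc x → ∃ t l, c t <:+ l ∧ l <:+ c' t ∧ |g (update c t l) x| < 1 / 2 := by
  classical
  choose η hη0 hη using hH
  choose μ hμ using fun θ => exists_nat_one_div_lt (hη0 θ)
  have hN1 : (1 : ℝ) ≤ N := by exact_mod_cast hN0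
  have hr0 : (0 : ℝ) ≤ 1 - 1 / N := by
    rw [sub_nonneg, div_le_one (by linarith)]; exact hN1
  have hr1 : (1 - 1 / N : ℝ) < 1 := by
    have : (0 : ℝ) < 1 / N := by positivity
    linarith
  set C : ℝ := ∑ j, |cc j| + 1 with hC
  have hC0 : 0 < C := by positivity
  have hCj : ∀ j, cc j ≤ C := fun j => by
    have := single_le_sum (f := fun j => |cc j|) (fun _ _ => abs_nonneg _) (mem_univ j)
    linarith [le_abs_self (cc j)]
  choose p hp using fun t => exists_profile bl cc D H bθ μ (fun l => g (update c t l))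
    (fun l => happ _) (c t)
  choose P hP using fun (t : τ) (k : ℕ) => exists_pow_lt_of_lt_one
    (show (0 : ℝ) < 1 / ((p t k : ℝ) + 1) / C by positivity) hr1
  obtain ⟨q, hq0, hq⟩ := kinds hno P
  choose R₀ hR₀ using fun t => arm bl cc D H bθ μ (fun l => g (update c t l)) _ (c t) (hp t q)
  set Z₀ : Finset β := univ.biUnion R₀ with hZ₀
  have hRZ₀ : ∀ t, R₀ t ⊆ Z₀ := fun t => subset_biUnion_of_mem R₀ (mem_univ t)
  obtain ⟨y, hy, hd⟩ := exists_disjoint (τ := τ) (Y := (ℕ → List α) × (ℕ → Finset β))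
    (fun t y => y.1 0 = c t ∧ (∀ k, y.2 k ⊆ y.2 (k + 1)) ∧ ∃ Z, Z₀ ⊆ Z ∧
      ∀ k < q, StepOK bl cc D H bθ μ (fun l => g (update c t l)) (p t k) (y.1 k) (y.1 (k + 1))
        (y.2 k) (y.2 (k + 1)) Z) (fun y => y.2 q) Z₀ (fun t Z hZ => by
      obtain ⟨l, R, h1, h2, h3, h4, h5⟩ := hR₀ t Z
      refine ⟨(l, R), ⟨h1, h3, Z, hZ, fun k hk => ?_⟩, fun z hz hzZ => hRZ₀ t (h4 q z hz hzZ)⟩
      have := h5 k (by simpa using hk)
      rwa [List.getD_eq_getElem _ _ (by simpa using hk), List.getElem_map,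
        List.getElem_range] at this)
  have hsuf : ∀ t i k, i ≤ k → k ≤ q → (y t).1 i <:+ (y t).1 k := by
    intro t i k hik hk
    induction k, hik using Nat.le_induction with
    | base => exact List.suffix_refl _
    | succ k hik ih =>
      obtain ⟨Z, -, h5⟩ := (hy t).2.2
      obtain ⟨a, -, h, -⟩ := h5 k hk
      rw [h]
      exact (ih (Nat.le_of_succ_le hk)).trans (List.suffix_cons _ _)
  have hnd : ∀ t k, k ≤ q → (c t).Nodup → ((y t).1 k).Nodup := by
    intro t k hk hc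
    induction k with
    | zero => rwa [(hy t).1]
    | succ k ih =>
      obtain ⟨Z, -, h5⟩ := (hy t).2.2
      obtain ⟨a, ha, h, -⟩ := h5 k hk
      rw [h]
      exact List.nodup_cons.2 ⟨ha, ih (Nat.le_of_succ_le hk)⟩
  refine ⟨fun t => (y t).1 q, fun t => (hy t).1 ▸ hsuf t 0 q (Nat.zero_le _) le_rfl,
    fun t => hnd t q le_rfl, fun x hx => ?_⟩
  by_contra hcon
  push Not at hcon
  have hmono : ∀ t, Monotone (y t).2 := fun t => monotone_nat_of_le_succ (hy t).2.1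
  have hstep : ∀ t, ∀ k < q, ∃ j, cc j - ms bl j ((y t).2 (k + 1)) x ≤
      (1 - 1 / N) * (cc j - ms bl j ((y t).2 k) x) ∧ ∃ z ∈ (y t).2 q, z ∉ Z₀ ∧ bl z ≤ j ∧
        1 / ((p t k : ℝ) + 1) ≤ |x z| := by
    intro t k hk
    obtain ⟨h1, h3, Z, hZ, h5⟩ := hy t
    obtain ⟨a, ha, h, θ, e, ρ, b0, b3, b4, b5, b6, b7⟩ := h5 k hk
    obtain ⟨j, j1, d, j2, j3, j4⟩ := step bl cc D H bθ
      (fun a => g (update c t (a :: (y t).1 k))) (fun a => a ∉ (y t).1 k) M N hN hN0
      (fun A x' hA hx' => hb c t _ A x' hA hx') a θ e ρ _ _ (h3 k) b3 b4 b5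
      (fun d hd => (b6 d hd).1) b7 _ (hη0 θ) (hη θ) x hx (by
        rw [← h]
        exact hcon t _ (h1 ▸ hsuf t 0 (k + 1) (Nat.zero_le _) hk) (hsuf t (k + 1) q hk le_rfl))
    refine ⟨j, j1, e d, hmono t hk (b4 d), fun h => (b6 d j2).2 (hZ h), j3,
      le_trans ?_ ((hμ θ).le.trans j4)⟩
    have : (μ θ : ℝ) ≤ p t k := by exact_mod_cast b0
    gcongr
  have hτ : Nonempty τ := by
    by_contra h
    exact hno ⟨fun t => absurd ⟨t⟩ h, fun t => absurd ⟨t⟩ h⟩
  have hQ : Nonempty Q := ⟨(hstep hτ.some 0 hq0).choose⟩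
  choose! J hJ using hstep
  obtain ⟨t, t', k, j, htt, hk, hj, hP'⟩ := hq J
  obtain ⟨z, hz1, hz2, hz3, a8⟩ := (hJ t' k hk).2
  have a1 := numeric (fun i => cc j - ms bl j ((y t).2 i) x) (fun i => J t i = j) _ hr0 q
    (fun i => sub_le_sub_left (ms_mono bl j ((hy t).2.1 i) x) _)
    (fun i hi h => h ▸ (hJ t i hi).1)
  have a2 : z ∉ (y t).2 q := fun h => hz2 (hd t' t htt _ hz1 h)
  have a3 := hx j (insert z ((y t).2 q))
  rw [ms, sum_insert a2, if_pos (hz3.trans hj)] at a3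
  have a4 := pow_le_pow_of_le_one hr0 hr1.le hP'
  have a5 := hP t' k
  rw [lt_div_iff₀ hC0] at a5
  have a6 : cc j - ms bl j ((y t).2 0) x ≤ C := by
    linarith [ms_nonneg bl j ((y t).2 0) x, hCj j]
  have a7 := mul_le_mul a4 a6 (sub_nonneg.2 (hx _ _)) (pow_nonneg hr0 _)
  unfold ms at a1 a7
  linarith

theorem core (hno : ¬ ∃ φ : τ → Q, ∀ s t, φ s ≤ φ t → s = t)
    (hH : ∀ θ, ∃ η : ℝ, 0 < η ∧ ∀ y y' : D θ → ℝ, (∀ d, |y d - y' d| < η) →
      |H θ y - H θ y'| ≤ 1 / 8)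
    (g : (τ → List α) → (β → ℝ) → ℝ) (happ : ∀ c, ∃ θ e, App bl cc D H bθ (g c) θ e) (M : ℝ)
    (hM : ∀ c x, InK bl cc x → |g c x| ≤ M)
    (hb : ∀ c t l (A : Finset α) x, (∀ a ∈ A, a ∉ l) → InK bl cc x →
      ∑ a ∈ A, |g (update c t (a :: l)) x| ≤ M)
    (hv : ∀ (I : Finset ℕ) (c c' : ℕ → τ → List α) x,
      (∀ i t, c i t <:+ c' i t ∧ c' i t <:+ c (i + 1) t) → InK bl cc x →
      ∑ i ∈ I, |g (c' i) x - g (c (i + 1)) x| ≤ M)
    (hc : ∀ (W : ℕ) (c : ℕ → τ → List α), 0 < W → (∀ i t, c i t <:+ c (i + 1) t) →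
      (∀ t, (c W t).Nodup) →
      ∃ x, InK bl cc x ∧ 3 / 4 * (W : ℝ) ≤ ∑ i ∈ range W, |g (c (i + 1)) x|) : False := by
  classical
  obtain ⟨N, hN⟩ := exists_nat_gt (8 * |M|)
  have hN0 : 0 < N := by
    have : (0 : ℝ) < N := lt_of_le_of_lt (by positivity) hN
    exact_mod_cast this
  obtain ⟨W, hW⟩ := exists_nat_gt (64 * M ^ 2)
  have hW0 : 0 < W := by
    have : (0 : ℝ) < W := lt_of_le_of_lt (by positivity) hW
    exact_mod_cast this
  choose F hF1 hF3 hF4 using window bl cc D H bθ hno hH g happ M N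
    (by linarith [le_abs_self M]) hN0 hb
  let c : ℕ → τ → List α := fun i => F^[i] fun _ => []
  have hc1 : ∀ i, c (i + 1) = F (c i) := fun i => Function.iterate_succ_apply' _ _ _
  have hc2 : ∀ i t, (c i t).Nodup := by
    intro i t
    induction i with
    | zero => simp [c]
    | succ i ih => rw [hc1]; exact hF3 _ _ ih
  obtain ⟨x, hx, hsum⟩ := hc W c hW0 (fun i t => hc1 i ▸ hF1 _ t) (hc2 W)
  choose t l h1 h2 h3 using fun i => hF4 (c i) x hx
  set I := (range W).filter fun i => 5 / 8 ≤ |g (c (i + 1)) x| with hI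
  have a1 := hv I c (fun i => update (c i) (t i) (l i)) x (fun i s => by
    rw [hc1]
    by_cases hs : s = t i
    · rw [hs, update_self]; exact ⟨h1 i, h2 i⟩
    · rw [update_of_ne hs]; exact ⟨List.suffix_refl _, hF1 _ s⟩) hx
  have a2 : (I.card : ℝ) * (1 / 8) ≤ M := by
    refine le_trans ?_ a1
    rw [← nsmul_eq_mul]
    refine card_nsmul_le_sum _ _ _ fun i hi => ?_
    have b1 := (mem_filter.1 hi).2
    have b2 := abs_sub_abs_le_abs_sub (g (c (i + 1)) x) (g (update (c i) (t i) (l i)) x)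
    rw [abs_sub_comm] at b2
    linarith [h3 i]
  have a3 : ∑ i ∈ range W, |g (c (i + 1)) x| ≤ I.card * M + W * (5 / 8) := by
    rw [← sum_filter_add_sum_filter_not (range W) fun i => 5 / 8 ≤ |g (c (i + 1)) x|]
    refine add_le_add ?_ ?_
    · rw [← nsmul_eq_mul]
      exact sum_le_card_nsmul _ _ _ fun i _ => hM _ x hx
    · have := sum_le_card_nsmul ((range W).filter fun i => ¬ 5 / 8 ≤ |g (c (i + 1)) x|)
        (fun i => |g (c (i + 1)) x|) (5 / 8) fun i hi => (not_le.1 (mem_filter.1 hi).2).le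
      rw [nsmul_eq_mul] at this
      have h : (((range W).filter fun i => ¬ 5 / 8 ≤ |g (c (i + 1)) x|).card : ℝ) ≤ W := by
        exact_mod_cast (card_filter_le _ _).trans (card_range W).le
      linarith
  have hM0 : 0 ≤ M := (abs_nonneg _).trans (hM (c 0) x hx)
  nlinarith [mul_le_mul_of_nonneg_right a2 hM0]

end Win

end Pool.Agent.P.MP_b4ec01_an.Nb
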