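import Mathlib

namespace Pool.Agent.P.MP_b4ec01_an.Nb

universe u v

/-- For a finite poset `Q`, `K Q κ` is the set of families `(x i)_{i ∈ Q}` of absolutely summable
vectors of `ℝ^κ` such that, for every `j`, the sum of the `ℓ¹` norms of the `x i` with `i ≤ j` is
at most the number of `i ≤ j`.  As a type it carries the subspace topology of the product topology
of `(ℝ^κ)^Q`. -/
def K (Q : Type v) [Fintype Q] [PartialOrder Q] [DecidableLE Q] (κ : Type u) :
    Set (Q → κ → ℝ) :=
  {x | (∀ i, Summable fun z => |x i z|) ∧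
    ∀ j, ∑ i ∈ Finset.univ.filter (fun i => i ≤ j), ∑' z, |x i z| ≤
      ((Finset.univ.filter fun i => i ≤ j).card : ℝ)}

end Pool.Agent.P.MP_b4ec01_an.Nb
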