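import Pool.Agent.P.MP_b4ec01_an.Nb.Maps

/-! Width and size are monotone under isomorphic embeddings; the classification. -/

open Finset Function

namespace Pool.Agent.P.MP_b4ec01_an.Nb

open Pw

universe u v w

variable {κ : Type u}

theorem exists_hh {X : Type*} [TopologicalSpace X] [CompactSpace X] {β : Type*}
    (c : β → C(X, ℝ)) (hc : ∀ z x, |c z x| ≤ 1) (hs : ∀ x y, (∀ z, c z x = c z y) → x = y)
    (f : C(X, ℝ)) : ∃ (θ : ℕ × ℕ) (e : Fin θ.1 → β), Injective e ∧
      ∀ x, |f x - HH θ fun d => c (e d) x| ≤ 1 / 8 := by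
  let A : Subalgebra ℝ C(X, ℝ) := (MvPolynomial.aeval c).range
  have hA : A.SeparatesPoints := by
    intro x y hxy
    obtain ⟨i, hi⟩ := not_forall.1 fun h => hxy (hs x y h)
    exact ⟨c i, ⟨c i, ⟨MvPolynomial.X i, by simp⟩, rfl⟩, hi⟩
  obtain ⟨⟨_, p, rfl⟩, hp⟩ :=
    ContinuousMap.exists_mem_subalgebra_near_continuousMap_of_separatesPoints A hA f (1 / 16)
      (by norm_num)
  obtain ⟨d, e, he, q, rfl⟩ := MvPolynomial.exists_fin_rename p
  let c' : Fin d → C(Fin d → Set.Icc (-1 : ℝ) 1, ℝ) := fun j => ⟨fun y => (y j).1, by fun_prop⟩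
  obtain ⟨n, hn⟩ := (TopologicalSpace.denseRange_denseSeq
    C(Fin d → Set.Icc (-1 : ℝ) 1, ℝ)).exists_dist_lt (MvPolynomial.aeval c' q)
    (show (0 : ℝ) < 1 / 16 by norm_num)
  refine ⟨(d, n), e, he, fun x => ?_⟩
  have h1 := (ContinuousMap.norm_coe_le_norm _ x).trans_lt hp
  have h2 := (ContinuousMap.dist_apply_le_dist
    (fun j => Set.projIcc (-1 : ℝ) 1 (by norm_num) (c (e j) x))).trans_lt hn
  have h3 : MvPolynomial.aeval c (MvPolynomial.rename e q) x =
      MvPolynomial.aeval c' q fun j => Set.projIcc (-1 : ℝ) 1 (by norm_num) (c (e j) x) := by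
    rw [MvPolynomial.aeval_rename, aeval_apply, aeval_apply]
    congr 2
    funext j
    simp only [c', comp_apply, ContinuousMap.coe_mk]
    rw [Set.projIcc_of_mem _ (abs_le.1 (hc _ _))]
  simp only [ContinuousMap.sub_apply, Real.norm_eq_abs, AlgHom.toRingHom_eq_coe,
    RingHom.coe_coe] at h1
  rw [h3] at h1
  rw [Real.dist_eq] at h2
  simp only [HH]
  rw [abs_lt] at h1 h2
  rw [abs_le]
  constructor <;> linarith [h1.1, h1.2, h2.1, h2.2]

section Source

variable [DecidableEq κ]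

/-- Cumulative indicator of a chain, each step at its own scale. -/
noncomputable def V' : List κ → C(B κ, ℝ)
  | [] => 1
  | a :: l => st (l.length + 1) l a * V' l

theorem V'_mem (l : List κ) (y : B κ) : 0 ≤ V' l y ∧ V' l y ≤ 1 := by
  induction l with
  | nil => simp [V']
  | cons a l ih =>
    exact ⟨mul_nonneg (st_mem _ l a y).1 ih.1, mul_le_one₀ (st_mem _ l a y).2 ih.1 ih.2⟩

theorem V'_mono {l l' : List κ} (h : l <:+ l') (y : B κ) : V' l' y ≤ V' l y := by
  obtain ⟨p, rfl⟩ := h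
  induction p with
  | nil => simp
  | cons a p ih =>
    exact (mul_le_of_le_one_left (V'_mem _ y).1 (st_mem _ _ a y).2).trans ih

theorem V'_eq_one (l : List κ) (hl : l.Nodup) (y : B κ) (hy : ∀ z ∈ l, y.1 z = ptl l z) :
    V' l y = 1 := by
  induction l with
  | nil => rfl
  | cons a l ih =>
    obtain ⟨ha, hl'⟩ := List.nodup_cons.1 hl
    have hy' : ∀ z ∈ l, y.1 z = ptl l z := fun z hz => by
      have : z ≠ a := fun h => ha (h ▸ hz)
      rw [hy z (List.mem_cons_of_mem _ hz)]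
      simp only [ptl, update_of_ne this]
    have h1 : st (l.length + 1) l a y * V (l.length + 1) l y = 1 :=
      V_eq_one (l.length + 1) (a :: l) hl le_rfl y hy
    rw [V_eq_one _ l hl' (Nat.le_succ _) y hy'] at h1
    show st (l.length + 1) l a y * V' l y = 1
    rwa [ih hl' hy']

theorem ptl_le (l : List κ) (hl : l.Nodup) (F : Finset κ) :
    ∑ i ∈ F, |ptl l i| ≤ 1 - 1 / 3 ^ l.length := by
  have h1 : ∑ i ∈ F, |ptl l i| = ∑ i ∈ F ∩ l.toFinset, ptl l i := by
    rw [sum_congr rfl fun i _ => abs_of_nonneg (ptl_nonneg l i)]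
    exact (sum_subset inter_subset_left fun z hz hz' =>
      ptl_zero l z fun h => hz' (mem_inter.2 ⟨hz, List.mem_toFinset.2 h⟩)).symm
  rw [h1, ← ptl_sum l hl]
  exact sum_le_sum_of_subset_of_nonneg inter_subset_right fun z _ _ => ptl_nonneg l z

variable {τ : Type v} [Fintype τ]

/-- The test functions. -/
noncomputable def U' (c : τ → List κ) : C(τ → B κ, ℝ) :=
  ∏ t, (V' (c t)).comp ⟨fun w => w t, continuous_apply _⟩

theorem U'_apply (c : τ → List κ) (w : τ → B κ) : U' c w = ∏ t, V' (c t) (w t) := by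
  simp [U']

theorem U'_mem (c : τ → List κ) (w : τ → B κ) : 0 ≤ U' c w ∧ U' c w ≤ 1 := by
  rw [U'_apply]
  exact ⟨prod_nonneg fun t _ => (V'_mem _ _).1,
    prod_le_one (fun t _ => (V'_mem _ _).1) fun t _ => (V'_mem _ _).2⟩

theorem U'_mono {c c' : τ → List κ} (h : ∀ t, c t <:+ c' t) (w : τ → B κ) :
    U' c' w ≤ U' c w := by
  rw [U'_apply, U'_apply]
  exact prod_le_prod (fun t _ => (V'_mem _ _).1) fun t _ => V'_mono (h t) _

theorem U'_sib [DecidableEq τ] (c : τ → List κ) (t : τ) (l : List κ) (A : Finset κ)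
    (hA : ∀ a ∈ A, a ∉ l) (w : τ → B κ) : ∑ a ∈ A, |U' (update c t (a :: l)) w| ≤ 1 := by
  refine le_trans (sum_le_sum fun a _ => ?_) (st_sib (l.length + 1) l A hA (w t))
  rw [abs_of_nonneg (U'_mem _ w).1, U'_apply, ← mul_prod_erase univ _ (mem_univ t),
    update_self]
  refine (mul_le_of_le_one_right (V'_mem _ _).1 (prod_le_one (fun t _ => (V'_mem _ _).1)
    fun t _ => (V'_mem _ _).2)).trans ?_
  exact mul_le_of_le_one_right (st_mem _ l a _).1 (V'_mem l _).2

theorem U'_var (I : Finset ℕ) (c c' : ℕ → τ → List κ)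
    (h : ∀ i t, c i t <:+ c' i t ∧ c' i t <:+ c (i + 1) t) (w : τ → B κ) :
    ∑ i ∈ I, |(U' (c' i) - U' (c (i + 1))) w| ≤ 1 := by
  obtain ⟨n, hn⟩ := I.exists_nat_subset_range
  have h1 : ∀ i, |(U' (c' i) - U' (c (i + 1))) w| ≤ U' (c i) w - U' (c (i + 1)) w := fun i => by
    have a1 := U'_mono (fun t => (h i t).1) w
    have a2 := U'_mono (fun t => (h i t).2) w
    rw [ContinuousMap.sub_apply, abs_of_nonneg (sub_nonneg.2 a2)]
    linarith
  refine (sum_le_sum_of_subset_of_nonneg hn fun _ _ _ => abs_nonneg _).trans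
    ((sum_le_sum fun i _ => h1 i).trans ?_)
  rw [sum_range_sub' fun i => U' (c i) w]
  linarith [(U'_mem (c 0) w).2, (U'_mem (c n) w).1]

variable {Y : Type w} [TopologicalSpace Y] [CompactSpace Y]
  (T : C(τ → B κ, ℝ) →ₗ[ℝ] C(Y, ℝ))

theorem upper [DecidableEq τ] (M : ℝ) (hM : 0 ≤ M) (h2 : ∀ f, ‖T f‖ ≤ M * ‖f‖) (y : Y) :
    (∀ c, |T (U' c) y| ≤ M) ∧
    (∀ c t l (A : Finset κ), (∀ a ∈ A, a ∉ l) →
      ∑ a ∈ A, |T (U' (update c t (a :: l))) y| ≤ M) ∧
    ∀ (I : Finset ℕ) (c c' : ℕ → τ → List κ),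
      (∀ i t, c i t <:+ c' i t ∧ c' i t <:+ c (i + 1) t) →
      ∑ i ∈ I, |T (U' (c' i)) y - T (U' (c (i + 1))) y| ≤ M := by
  classical
  refine ⟨fun c => ?_, fun c t l A hA => ?_, fun I c c' h => ?_⟩
  · simpa using sign_trick T M hM h2 {c} U' 1 zero_le_one (fun w => by
      rw [sum_singleton, abs_of_nonneg (U'_mem c w).1]; exact (U'_mem c w).2) y
  · simpa using sign_trick T M hM h2 A _ 1 zero_le_one (U'_sib c t l A hA) y
  · simpa using sign_trick T M hM h2 I _ 1 zero_le_one (U'_var I c c' h) y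

theorem lower (W : ℕ) (hW : 0 < W) (c : ℕ → τ → List κ) (hc : ∀ i t, c i t <:+ c (i + 1) t)
    (hnd : ∀ t, (c W t).Nodup)
    (h1 : ∀ f, f (fun t => ⟨ptl (c W t), mem_B_iff.2 (ptl_inB _ (hnd t))⟩) ≤ ‖T f‖) :
    ∃ y, 3 / 4 * (W : ℝ) ≤ ∑ i ∈ range W, |T (U' (c (i + 1))) y| := by
  have hmono : ∀ i k, i ≤ k → ∀ t, c i t <:+ c k t := by
    intro i k hik t
    induction k, hik using Nat.le_induction with
    | base => exact List.suffix_refl _
    | succ k _ ih => exact ih.trans (hc k t)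
  have h3 := h1 (∑ i ∈ range W, U' (c (i + 1)))
  set w : τ → B κ := fun t => ⟨ptl (c W t), mem_B_iff.2 (ptl_inB _ (hnd t))⟩ with hw'
  have hw : U' (c W) w = 1 := by
    rw [U'_apply]
    exact prod_eq_one fun t _ => V'_eq_one _ (hnd t) _ fun z _ => rfl
  have h4 := card_nsmul_le_sum (range W) (fun i => U' (c (i + 1)) w) 1 fun i hi =>
    hw ▸ U'_mono (hmono _ _ (mem_range.1 hi)) w
  have hW0 : (0 : ℝ) < W := by exact_mod_cast hW
  by_contra hcon
  push Not at hcon
  have h5 : ‖T (∑ i ∈ range W, U' (c (i + 1)))‖ ≤ 3 / 4 * W := by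
    rw [ContinuousMap.norm_le _ (by positivity)]
    intro x
    refine le_trans ?_ (hcon x).le
    simp only [map_sum, ContinuousMap.coe_sum, Finset.sum_apply, Real.norm_eq_abs]
    exact abs_sum_le_sum_abs _ _
  simp only [ContinuousMap.coe_sum, Finset.sum_apply] at h3
  simp only [card_range, nsmul_eq_mul, mul_one] at h4
  linarith

end Source

variable {Q : Type v} [Fintype Q] [PartialOrder Q] [DecidableLE Q]

/-- The point of `K` given by a family of coordinates. -/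
def toK {x : Q × κ → ℝ} (h : InK Prod.fst cc x) : K Q κ :=
  ⟨fun i z => x (i, z), mem_K_iff'.2 h⟩

/-- Extension by zero. -/
noncomputable def extK (f : C(K Q κ, ℝ)) (x : Q × κ → ℝ) : ℝ :=
  open Classical in if h : InK Prod.fst cc x then f (toK h) else 0

theorem extK_apply (f : C(K Q κ, ℝ)) {x : Q × κ → ℝ} (h : InK Prod.fst cc x) :
    extK f x = f (toK h) := by
  simp [extK, h]

theorem width [Uncountable κ] {τ : Type w} [Fintype τ] (h : Emb (τ → B κ) (K Q κ)) :
    ∃ φ : τ → Q, ∀ s t, φ s ≤ φ t → s = t := by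
  classical
  by_contra hno
  obtain ⟨T, M, hM, h1, h2⟩ := h.norm
  set s : ℝ := Fintype.card Q + 1 with hs
  have hs1 : 1 ≤ s := by linarith [Nat.cast_nonneg (α := ℝ) (Fintype.card Q)]
  have hs0 : 0 < s := by linarith
  refine core (α := κ) Prod.fst cc (fun θ : Σ p : ℕ × ℕ, Fin p.1 → Q => Fin θ.1.1)
    (fun θ y => HH θ.1 fun d => y d / s) (fun θ => θ.2) hno (fun θ => ?_)
    (fun c => extK (T (U' c))) (fun c => ?_) M (fun c x hx => ?_) (fun c t l A x hA hx => ?_)
    (fun I c c' x h hx => ?_) fun W c hW hc hnd => ?_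
  · obtain ⟨η, hη, hH⟩ := HH_unif θ.1
    refine ⟨η, hη, fun y y' hy => hH _ _ fun d => lt_of_le_of_lt ?_ (hy d)⟩
    rw [← sub_div, abs_div, abs_of_pos hs0]
    exact div_le_self (abs_nonneg _) hs1
  · obtain ⟨θ, e, he, hθ⟩ := exists_hh (fun z : Q × κ =>
      (⟨fun x => x.1 z.1 z.2 / s, (continuous_K _ _).div_const _⟩ : C(K Q κ, ℝ)))
      (fun z x => by
        simp only [ContinuousMap.coe_mk]
        rw [abs_div, abs_of_pos hs0, div_le_one hs0]
        linarith [abs_le_of_mem x.2 z.1 z.2])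
      (fun x y h => Subtype.ext (funext fun i => funext fun z =>
        (div_left_inj' hs0.ne').1 (h (i, z)))) (T (U' c))
    refine ⟨⟨θ, fun d => (e d).1⟩, e, he, fun _ => rfl, fun x hx => ?_⟩
    rw [extK_apply _ hx]
    exact hθ (toK hx)
  · rw [extK_apply _ hx]
    exact (upper T M hM h2 _).1 c
  · simp only [extK_apply _ hx]
    exact (upper T M hM h2 _).2.1 c t l A hA
  · simp only [extK_apply _ hx]
    exact (upper T M hM h2 _).2.2 I c c' h
  · obtain ⟨y, hy⟩ := lower T W hW c hc hnd fun f =>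
      ((le_abs_self _).trans (f.norm_coe_le_norm _)).trans (h1 f)
    have hx := mem_K_iff'.1 y.2
    refine ⟨_, hx, ?_⟩
    simp only [extK_apply _ hx]
    exact hy

theorem size [Uncountable κ] {ι : Type w} [Fintype ι] (h : Emb (K Q κ) (ι → B κ)) :
    Fintype.card Q ≤ Fintype.card ι := by
  classical
  by_contra hno
  obtain ⟨T, M, hM, h1, h2⟩ := h.norm
  obtain ⟨N, hN⟩ := exists_nat_gt (8 * M)
  have hN0 : 0 < N := by
    have : (0 : ℝ) < N := by linarith
    exact_mod_cast this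
  obtain ⟨q₀, hq⟩ := exists_pow_lt_of_lt_one (show (0 : ℝ) < 1 / 2 by norm_num)
    (show (1 - 1 / N : ℝ) < 1 by
      have : (0 : ℝ) < 1 / N := by positivity
      linarith)
  obtain ⟨W, hW⟩ := exists_nat_gt (32 * M ^ 2)
  have hW0 : 0 < W := by
    have : (0 : ℝ) < W := lt_of_le_of_lt (by positivity) hW
    exact_mod_cast this
  set m := W * (Fintype.card ι * q₀ + 1) with hm
  obtain ⟨Ψ, hΨ⟩ := psi_eq (κ := κ) (Q := Q) (1 / 3 ^ m) (by positivity)
  have h3 : ∀ f, ‖(T ∘ₗ cmp Ψ) f‖ ≤ M * ‖f‖ := fun f =>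
    (h2 _).trans (mul_le_mul_of_nonneg_left (norm_cmp Ψ f) hM)
  refine Pw.core (α := κ) (τ := Q) Prod.fst
    (fun θ : Σ p : ℕ × ℕ, Fin p.1 → ι => Fin θ.1.1) (fun θ => HH θ.1) (fun θ => θ.2)
    (not_le.1 hno) (fun c => ext' ((T ∘ₗ cmp Ψ) (U' c))) (fun c => exists_app' _) M N q₀ W hN hN0
    hq.le hW (fun c x hx => ?_) (fun c t l A x hA hx => ?_) (fun I c c' x h hx => ?_)
    fun c hc hnd hlen => ?_
  · rw [ext'_apply _ hx]
    exact (upper _ M hM h3 _).1 c
  · simp only [ext'_apply _ hx]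
    exact (upper _ M hM h3 _).2.1 c t l A hA
  · simp only [ext'_apply _ hx]
    exact (upper _ M hM h3 _).2.2 I c c' h
  · obtain ⟨x, hx⟩ := hΨ (fun t => ⟨ptl (c W t), mem_B_iff.2 (ptl_inB _ (hnd t))⟩)
      (fun _ => 1 - 1 / 3 ^ m) (fun t F => (ptl_le _ (hnd t) F).trans (sub_le_sub_left
        (one_div_le_one_div_of_le (by positivity) (pow_le_pow_right₀ (by norm_num) (hlen t))) _))
      (fun _ => sub_le_self _ (by positivity)) fun _ => Or.inl le_rfl
    obtain ⟨y, hy⟩ := lower (T ∘ₗ cmp Ψ) W hW0 c hc hnd fun f => by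
      rw [← hx]
      exact ((le_abs_self _).trans ((cmp Ψ f).norm_coe_le_norm x)).trans (h1 _)
    have hy' := inBB_of_mem y
    refine ⟨_, hy', ?_⟩
    simp only [ext'_apply _ hy']
    exact hy

variable {P : Type w} [Fintype P] [PartialOrder P] [DecidableLE P]

omit [DecidableLE Q] in
theorem chain_map (hP : ∀ i j : P, i ≤ j ∨ j ≤ i) (h : Fintype.card P ≤ Fintype.card Q) :
    ∃ φ : P → Q, ∀ i j, φ i ≤ φ j → i ≤ j := by
  let _ : LinearOrder P :=
    { ‹PartialOrder P› with le_total := hP, toDecidableLE := ‹DecidableLE P› }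
  let _ : Fintype (LinearExtension Q) := ‹Fintype Q›
  let a := monoEquivOfFin P rfl
  let b := monoEquivOfFin (LinearExtension Q) (k := Fintype.card Q) rfl
  refine ⟨fun i => (b (Fin.castLE h (a.symm i)) : LinearExtension Q), fun i j hij => ?_⟩
  have h1 : b (Fin.castLE h (a.symm i)) ≤ b (Fin.castLE h (a.symm j)) :=
    (toLinearExtension (α := Q)).monotone hij
  rw [b.le_iff_le, Fin.castLE_le_castLE_iff] at h1
  exact a.symm.le_iff_le.1 h1

theorem emb_iff [Uncountable κ]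
    (h : IsChain (· ≤ ·) (Set.univ : Set P) ∨ IsAntichain (· ≤ ·) (Set.univ : Set P) ∨
      IsChain (· ≤ ·) (Set.univ : Set Q) ∨ IsAntichain (· ≤ ·) (Set.univ : Set Q)) :
    Emb (K P κ) (K Q κ) ↔ ∃ φ : P → Q, ∀ i j, φ i ≤ φ j → i ≤ j := by
  classical
  refine ⟨fun he => ?_, fun ⟨φ, hφ⟩ => emb_reflect φ hφ⟩
  have hs : Fintype.card P ≤ Fintype.card Q := size (he.trans emb_power)
  rcases h with h | h | h | h
  · exact chain_map (fun i j => h.total trivial trivial) hs
  · obtain ⟨φ, hφ⟩ := width ((emb_antichain id fun s t hst => h.eq trivial trivial hst).trans he)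
    exact ⟨φ, fun i j hij => (hφ i j hij).le⟩
  · refine chain_map (fun i j => ?_) hs
    by_contra hc
    rw [not_or] at hc
    obtain ⟨φ, hφ⟩ := width ((emb_antichain (fun b : Bool => if b then i else j) (by
      rintro (_ | _) (_ | _) hst <;> simp_all)).trans he)
    rcases h.total (x := φ true) (y := φ false) trivial trivial with h' | h' <;>
      simpa using hφ _ _ h'
  · obtain ⟨φ⟩ := Embedding.nonempty_of_card_le hs
    exact ⟨φ, fun i j hij => (φ.injective (h.eq trivial trivial hij)).le⟩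

theorem width_iff [Uncountable κ] (ι : Type w) :
    Emb (ι → B κ) (K Q κ) ↔ ∃ φ : ι → Q, Injective φ ∧ IsAntichain (· ≤ ·) (Set.range φ) := by
  classical
  refine ⟨fun he => ?_, fun ⟨φ, h1, h2⟩ =>
    emb_antichain φ fun s t h => h1 (h2.eq ⟨s, rfl⟩ ⟨t, rfl⟩ h)⟩
  rcases finite_or_infinite ι with h | h
  · have := Fintype.ofFinite ι
    obtain ⟨φ, hφ⟩ := width he
    refine ⟨φ, fun s t h => hφ s t h.le, ?_⟩
    rintro _ ⟨s, rfl⟩ _ ⟨t, rfl⟩ hne h
    exact hne (congrArg φ (hφ s t h))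
  · obtain ⟨f, hf⟩ := Countable.exists_injective_nat (Option Q)
    obtain ⟨φ, hφ⟩ := width (Emb.trans ((embeds_iff ι (Option Q)).2
      ⟨(⟨f, hf⟩ : Option Q ↪ ℕ).trans (Infinite.natEmbedding ι)⟩) he)
    have := Fintype.card_le_of_injective φ fun s t h => hφ s t h.le
    simp at this

end Pool.Agent.P.MP_b4ec01_an.Nb
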