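import Pool.Agent.P.MP_b4ec01_an.Pw.Main
import Pool.Agent.P.MP_b4ec01_an.Nb.Comb
import Pool.Agent.P.MP_b4ec01_an.Nb.Defs

/-! Continuous maps between nested balls and powers of the ball. -/

open Finset Function

namespace Pool.Agent.P.MP_b4ec01_an.Nb

universe u v w

variable {κ : Type u}

section Basic

variable {Q : Type v} [Fintype Q] [PartialOrder Q] [DecidableLE Q]

/-- The elements below `j`. -/
def dn (j : Q) : Finset Q := univ.filter fun i => i ≤ j

theorem mem_dn {i j : Q} : i ∈ dn j ↔ i ≤ j := by simp [dn]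

/-- The budget at `j`. -/
def cc (j : Q) : ℝ := (dn j).card

theorem one_le_cc (j : Q) : 1 ≤ cc j :=
  Nat.one_le_cast.2 (card_pos.2 ⟨j, mem_dn.2 le_rfl⟩)

theorem cc_pos (j : Q) : 0 < cc j := one_pos.trans_le (one_le_cc j)

theorem cc_le (j : Q) : cc j ≤ Fintype.card Q := Nat.cast_le.2 (card_le_univ _)

theorem single_le_dn (x : Q → κ → ℝ) (j : Q) (F : Finset κ) :
    ∑ z ∈ F, |x j z| ≤ ∑ i ∈ dn j, ∑ z ∈ F, |x i z| :=
  single_le_sum (f := fun i => ∑ z ∈ F, |x i z|)
    (fun _ _ => sum_nonneg fun _ _ => abs_nonneg _) (mem_dn.2 le_rfl)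

theorem mem_K_iff {x : Q → κ → ℝ} :
    x ∈ K Q κ ↔ ∀ j (F : Finset κ), ∑ i ∈ dn j, ∑ z ∈ F, |x i z| ≤ cc j := by
  constructor
  · rintro ⟨h1, h2⟩ j F
    exact (sum_le_sum fun i _ => (h1 i).sum_le_tsum F fun _ _ => abs_nonneg _).trans (h2 j)
  · intro h
    have hs : ∀ i, Summable fun z => |x i z| := fun i =>
      summable_of_sum_le (fun _ => abs_nonneg _) fun F => (single_le_dn x i F).trans (h i F)
    refine ⟨hs, fun j => ?_⟩
    rw [← Summable.tsum_finsetSum fun i _ => hs i]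
    refine (summable_sum fun i _ => hs i).tsum_le_of_sum_le fun F => ?_
    rw [sum_comm]
    exact h j F

theorem abs_le_of_mem {x : Q → κ → ℝ} (h : x ∈ K Q κ) (j : Q) (z : κ) :
    |x j z| ≤ Fintype.card Q := by
  have := (single_le_dn x j {z}).trans (mem_K_iff.1 h j {z})
  rw [sum_singleton] at this
  exact this.trans (cc_le j)

instance compactSpace_K : CompactSpace (K Q κ) := by
  have h1 : IsClosed (K Q κ) := by
    have : K Q κ = ⋂ j, ⋂ F : Finset κ, {x | ∑ i ∈ dn j, ∑ z ∈ F, |x i z| ≤ cc j} := by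
      ext x; simp only [mem_K_iff, Set.mem_iInter, Set.mem_ofPred_eq]
    rw [this]
    exact isClosed_iInter fun j => isClosed_iInter fun F =>
      isClosed_le (by fun_prop) continuous_const
  exact isCompact_iff_compactSpace.1 ((isCompact_univ_pi fun _ : Q => isCompact_univ_pi
    fun _ : κ => isCompact_Icc (a := -(Fintype.card Q : ℝ))
      (b := Fintype.card Q)).of_isClosed_subset h1 fun x hx j _ z _ =>
        abs_le.1 (abs_le_of_mem hx j z))

theorem continuous_K (j : Q) (z : κ) : Continuous fun x : K Q κ => x.1 j z :=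
  (continuous_apply z).comp ((continuous_apply j).comp continuous_subtype_val)

theorem mem_K_iff' {x : Q → κ → ℝ} :
    x ∈ K Q κ ↔ InK Prod.fst cc fun p : Q × κ => x p.1 p.2 := by
  classical
  have h : ∀ j (F : Finset κ), ms Prod.fst j (univ ×ˢ F) (fun p : Q × κ => x p.1 p.2) =
      ∑ i ∈ dn j, ∑ z ∈ F, |x i z| := fun j F => by
    rw [ms, sum_product, dn, sum_filter]
    refine sum_congr rfl fun i _ => ?_
    split_ifs <;> simp
  rw [mem_K_iff]
  refine ⟨fun hx j G => ?_, fun hx j F => h j F ▸ hx j _⟩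
  refine (ms_mono _ j (fun p hp => ?_) _).trans ((h j (G.image Prod.snd)).trans_le (hx j _))
  exact mem_product.2 ⟨mem_univ _, mem_image_of_mem _ hp⟩

end Basic

section Emb

/-- `C(X)` embeds isomorphically in `C(Y)`. -/
def Emb (X : Type v) (Y : Type w) [TopologicalSpace X] [TopologicalSpace Y] : Prop :=
  ∃ T : C(X, ℝ) →L[ℝ] C(Y, ℝ), Topology.IsEmbedding T

variable {X Y Z : Type*} [TopologicalSpace X] [TopologicalSpace Y] [TopologicalSpace Z]

theorem Emb.trans (h : Emb X Y) (h' : Emb Y Z) : Emb X Z := by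
  obtain ⟨T, hT⟩ := h
  obtain ⟨T', hT'⟩ := h'
  exact ⟨T'.comp T, hT'.comp hT⟩

/-- Composition with a continuous map. -/
def cmp (p : C(Y, X)) : C(X, ℝ) →ₗ[ℝ] C(Y, ℝ) :=
  { toFun := fun f => f.comp p, map_add' := fun _ _ => rfl, map_smul' := fun _ _ => rfl }

variable [CompactSpace X] [CompactSpace Y]

theorem norm_cmp (p : C(Y, X)) (f : C(X, ℝ)) : ‖cmp p f‖ ≤ ‖f‖ :=
  (ContinuousMap.norm_le _ (norm_nonneg _)).2 fun w => f.norm_coe_le_norm (p w)

theorem emb_of_surj (p : C(Y, X)) (hp : Surjective p) : Emb X Y := by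
  have hL : ∀ f, ‖cmp p f‖ = ‖f‖ := fun f => by
    refine le_antisymm (norm_cmp p f) ((ContinuousMap.norm_le _ (norm_nonneg _)).2 fun w => ?_)
    obtain ⟨w', rfl⟩ := hp w
    exact (cmp p f).norm_coe_le_norm w'
  let I : C(X, ℝ) →ₗᵢ[ℝ] C(Y, ℝ) := ⟨cmp p, hL⟩
  exact ⟨I.toContinuousLinearMap, I.isometry.isEmbedding⟩

theorem Emb.norm (h : Emb X Y) : ∃ (T : C(X, ℝ) →ₗ[ℝ] C(Y, ℝ)) (M : ℝ), 0 ≤ M ∧
    (∀ f, ‖f‖ ≤ ‖T f‖) ∧ ∀ f, ‖T f‖ ≤ M * ‖f‖ := by
  obtain ⟨T, hT⟩ := h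
  obtain ⟨C, hC⟩ := T.antilipschitz_of_isEmbedding hT
  refine ⟨(C : ℝ) • (T : C(X, ℝ) →ₗ[ℝ] C(Y, ℝ)), C * ‖T‖, by positivity, fun f => ?_, fun f => ?_⟩
  · have := hC.le_mul_dist f 0
    simpa [norm_smul] using this
  · simp only [LinearMap.smul_apply, ContinuousLinearMap.coe_coe, norm_smul, Real.norm_eq_abs,
      NNReal.abs_eq, mul_assoc]
    gcongr
    exact T.le_opNorm f

end Emb

theorem sum_extend {γ : Type*} {ω : γ → κ} (hω : Injective ω) (F : Finset κ) :
    ∃ G : Finset γ, ∀ f : γ → ℝ, ∑ u ∈ F, |extend ω f 0 u| = ∑ p ∈ G, |f p| :=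
  ⟨F.preimage ω hω.injOn, fun f => (sum_preimage ω F _ (fun u => |extend ω f 0 u|)
    fun u _ hu => by simp [extend_apply' _ _ _ hu]).symm.trans
      (sum_congr rfl fun p _ => by rw [hω.extend_apply])⟩

theorem weights {P : Type w} [Fintype P] (r : P → P → Prop) [DecidableRel r]
    (hr : WellFounded r) (l : P → ℝ) (h : ∀ j, ∑ i with r i j, l i ≤ l j) :
    ∃ μ : P → ℝ, ∀ j, (0 ≤ μ j ∧ μ j ≤ l j) ∧ μ j + ∑ i with r i j, μ i = l j := by
  let μ : P → ℝ := hr.fix fun j ih => l j - ∑ i, if h : r i j then ih i h else 0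
  have hμ : ∀ j, μ j = l j - ∑ i with r i j, μ i := fun j => by
    rw [sum_filter]
    simp only [μ]
    rw [hr.fix_eq]
    simp
  refine ⟨μ, fun j => ⟨?_, by rw [hμ j]; ring⟩⟩
  induction j using hr.induction with
  | _ j ih =>
    have a1 : ∑ i with r i j, μ i ≤ ∑ i with r i j, l i :=
      sum_le_sum fun i hi => (ih i (mem_filter.1 hi).2).2
    have a2 : 0 ≤ ∑ i with r i j, μ i := sum_nonneg fun i hi => (ih i (mem_filter.1 hi).2).1
    rw [hμ j]
    constructor <;> linarith [h j]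

section Maps

variable {Q : Type v} [Fintype Q] [PartialOrder Q] [DecidableLE Q] [DecidableEq Q]

theorem psi [Infinite κ] (δ : ℝ) (hδ : 0 < δ) (S : Q → Finset Q) (hS : ∀ q, S q ⊆ dn q) :
    ∃ (σ : Q → ℝ) (Ψ : C(K Q κ, Q → B κ)), (∀ q, 0 < σ q) ∧
      (∀ q, ∑ i ∈ (dn q).erase q, σ i ≤ δ * σ q) ∧
      ∀ v : Q → κ → ℝ, (∀ q (F : Finset κ), ∑ i ∈ dn q, ∑ u ∈ F, |v i u| ≤ σ q) →
        ∃ x, ∀ q u, (Ψ x q).1 u = (∑ i ∈ S q, v i u) / σ q := by
  obtain ⟨e⟩ : Nonempty (Option κ ↪ κ) := (Cardinal.le_def _ _).1 (by simp)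
  set n := Fintype.card Q with hn
  set η : ℝ := min 1 (δ / ((n : ℝ) ^ 2 + 1)) with hη
  have hη0 : 0 < η := by positivity
  have hη1 : η ≤ 1 := min_le_left _ _
  have hη2 : (n : ℝ) ^ 2 * η ≤ δ := by
    have := (le_div_iff₀ (by positivity)).1 (min_le_right 1 (δ / ((n : ℝ) ^ 2 + 1)))
    nlinarith
  let ε : Q → ℝ := fun i => η ^ (n - (dn i).card)
  have hε0 : ∀ i, 0 < ε i := fun i => pow_pos hη0 _
  have hε1 : ∀ i, ε i ≤ 1 := fun i => pow_le_one₀ hη0.le hη1
  let σ : Q → ℝ := fun q => ∑ i ∈ dn q, ε i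
  have hσ : ∀ q, ε q ≤ σ q := fun q =>
    single_le_sum (fun i _ => (hε0 i).le) (mem_dn.2 le_rfl)
  let s : K Q κ → Q → ℝ := fun x q => max (cc q - ∑ i ∈ dn q, |x.1 i (e none)|) (η ^ n)
  have hs0 : ∀ x q, 0 < s x q := fun x q => lt_max_of_lt_right (pow_pos hη0 _)
  have hB : ∀ x q, InB fun u => (∑ i ∈ S q, x.1 i (e (some u))) / s x q := fun x q F => by
    have h1 := mem_K_iff.1 x.2 q (F.insertNone.map e)
    simp only [sum_map, sum_insertNone, sum_add_distrib] at h1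
    simp only [abs_div, abs_of_pos (hs0 x q), ← sum_div]
    rw [div_le_one (hs0 x q)]
    refine le_trans ?_ (le_max_of_le_left (le_sub_iff_add_le'.2 h1))
    rw [sum_comm]
    exact sum_le_sum fun u _ => (abs_sum_le_sum_abs _ _).trans
      (sum_le_sum_of_subset_of_nonneg (hS q) fun _ _ _ => abs_nonneg _)
  refine ⟨σ, ⟨fun x q => ⟨_, mem_B_iff.2 (hB x q)⟩, continuous_pi fun q => Continuous.subtype_mk
    (continuous_pi fun u => (continuous_finsetSum _ fun i _ => continuous_K i _).div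
      ((continuous_const.sub (continuous_finsetSum _ fun i _ => (continuous_K i _).abs)).max
        continuous_const) fun x => (hs0 x q).ne') _⟩, fun q => (hε0 q).trans_le (hσ q),
    fun q => ?_, fun v hv => ?_⟩
  · have a1 : ∀ i ∈ (dn q).erase q, σ i ≤ n * (η * ε q) := fun i hi => by
      have hi' : i < q := lt_of_le_of_ne (mem_dn.1 (mem_of_mem_erase hi)) (ne_of_mem_erase hi)
      refine (sum_le_card_nsmul _ _ (η * ε q) fun k hk => ?_).trans ?_
      · have b1 : (dn k).card < (dn q).card := card_lt_card ⟨fun a ha =>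
          mem_dn.2 ((mem_dn.1 ha).trans ((mem_dn.1 hk).trans hi'.le)), fun h =>
            ((mem_dn.1 hk).trans_lt hi').not_ge (mem_dn.1 (h (mem_dn.2 le_rfl)))⟩
        have b2 : (dn q).card ≤ n := card_le_univ _
        simp only [ε]
        rw [← pow_succ']
        exact pow_le_pow_of_le_one hη0.le hη1 (by omega)
      · rw [nsmul_eq_mul]
        exact mul_le_mul_of_nonneg_right (cc_le i) (mul_pos hη0 (hε0 q)).le
    refine (sum_le_card_nsmul _ _ _ a1).trans ?_
    have a2 : (((dn q).erase q).card : ℝ) ≤ n := Nat.cast_le.2 (card_le_univ _)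
    rw [nsmul_eq_mul]
    calc _ ≤ (n : ℝ) * (n * (η * ε q)) :=
          mul_le_mul_of_nonneg_right a2 (by have := hε0 q; positivity)
      _ = n ^ 2 * η * ε q := by ring
      _ ≤ δ * σ q := mul_le_mul hη2 (hσ q) (hε0 q).le hδ.le
  · have a0 : ∀ q, ∑ i ∈ dn q, |1 - ε i| = cc q - σ q := fun q => by
      rw [sum_congr rfl fun i _ => abs_of_nonneg (sub_nonneg.2 (hε1 i)), sum_sub_distrib]
      simp [cc, σ]
    let x : Q → κ → ℝ := fun i => extend e (fun o => o.elim (1 - ε i) (v i)) 0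
    have hx : x ∈ K Q κ := mem_K_iff.2 fun q F => by
      classical
      obtain ⟨G, hG⟩ := sum_extend e.injective F
      have a1 : ∀ i, ∑ z ∈ F, |x i z| ≤ |1 - ε i| + ∑ u ∈ eraseNone G, |v i u| := fun i => by
        rw [hG]
        refine (sum_le_sum_of_subset_of_nonneg (t := insertNone (eraseNone G)) ?_
          fun _ _ _ => abs_nonneg _).trans (le_of_eq ?_)
        · rw [insertNone_eraseNone]; exact subset_insert _ _
        · rw [sum_insertNone]; rfl
      refine (sum_le_sum fun i _ => a1 i).trans ?_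
      rw [sum_add_distrib, a0]
      linarith [hv q (eraseNone G)]
    refine ⟨⟨x, hx⟩, fun q u => ?_⟩
    have a2 : s ⟨x, hx⟩ q = σ q := by
      simp only [s, x, e.injective.extend_apply, Option.elim, a0, sub_sub_cancel]
      exact max_eq_left ((pow_le_pow_of_le_one hη0.le hη1 (Nat.sub_le _ _)).trans (hσ q))
    show (∑ i ∈ S q, x i (e (some u))) / s ⟨x, hx⟩ q = _
    rw [a2]
    simp only [x, e.injective.extend_apply, Option.elim]

theorem psi_eq [Infinite κ] (δ : ℝ) (hδ : 0 < δ) : ∃ Ψ : C(K Q κ, Q → B κ),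
    ∀ (y : Q → B κ) (b : Q → ℝ), (∀ i (F : Finset κ), ∑ u ∈ F, |(y i).1 u| ≤ b i) →
      (∀ i, b i ≤ 1) → (∀ j, b j ≤ 1 - δ ∨ ∀ i, i ≤ j → i ≠ j → b i = 0) → ∃ x, Ψ x = y := by
  obtain ⟨σ, Ψ, h0, h1, h2⟩ := psi (κ := κ) (Q := Q) δ hδ (fun q => {q})
    fun q => singleton_subset_iff.2 (mem_dn.2 le_rfl)
  refine ⟨Ψ, fun y b hb hb1 hb2 => ?_⟩
  obtain ⟨x, hx⟩ := h2 (fun i u => σ i * (y i).1 u) fun q F => by
    have a1 : ∀ i, ∑ u ∈ F, |σ i * (y i).1 u| ≤ σ i * b i := fun i => by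
      simp only [abs_mul, abs_of_pos (h0 i), ← mul_sum]
      exact mul_le_mul_of_nonneg_left (hb i F) (h0 i).le
    refine (sum_le_sum fun i _ => a1 i).trans ?_
    rw [← add_sum_erase _ _ (mem_dn.2 (le_refl q))]
    rcases hb2 q with h | h
    · have a2 : ∑ i ∈ (dn q).erase q, σ i * b i ≤ ∑ i ∈ (dn q).erase q, σ i :=
        sum_le_sum fun i _ => mul_le_of_le_one_right (h0 i).le (hb1 i)
      nlinarith [h1 q, mul_le_mul_of_nonneg_left h (h0 q).le]
    · rw [sum_eq_zero fun i hi => by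
        rw [h i (mem_dn.1 (mem_of_mem_erase hi)) (ne_of_mem_erase hi), mul_zero], add_zero]
      exact mul_le_of_le_one_right (h0 q).le (hb1 q)
  refine ⟨x, funext fun q => Subtype.ext (funext fun u => ?_)⟩
  rw [hx, sum_singleton, mul_div_cancel_left₀ _ (h0 q).ne']

theorem emb_antichain [Infinite κ] {τ : Type w} (φ : τ → Q) (hφ : ∀ s t, φ s ≤ φ t → s = t) :
    Emb (τ → B κ) (K Q κ) := by
  classical
  obtain ⟨Ψ, hΨ⟩ := psi_eq (κ := κ) (Q := Q) 1 one_pos
  have hi : Injective φ := fun s t h => hφ s t h.le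
  refine emb_of_surj (ContinuousMap.comp ⟨fun w t => w (φ t), by fun_prop⟩ Ψ) fun y => ?_
  obtain ⟨x, hx⟩ := hΨ (extend φ y fun _ => ⟨0, mem_B_iff.2 fun F => by simp⟩)
    (fun i => if ∃ t, φ t = i then 1 else 0) (fun i F => by
      split_ifs with h
      · exact mem_B_iff.1 (Subtype.prop _) F
      · simp [extend_apply' _ _ _ h]) (fun i => by split_ifs <;> norm_num) fun j => by
      by_cases h : ∃ t, φ t = j
      · obtain ⟨t, rfl⟩ := h
        exact Or.inr fun i h1 h2 => if_neg (by rintro ⟨s, rfl⟩; exact h2 (congrArg φ (hφ s t h1)))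
      · exact Or.inl (by simp only [if_neg h]; norm_num)
  refine ⟨x, funext fun t => ?_⟩
  simp only [ContinuousMap.comp_apply, ContinuousMap.coe_mk, hx]
  exact hi.extend_apply _ _ t

variable {P : Type w} [Fintype P] [PartialOrder P] [DecidableLE P]

omit [PartialOrder P] [DecidableLE P] in
theorem exists_omega [Infinite κ] : ∃ ω : P × κ → κ, Injective ω := by
  obtain ⟨f, hf⟩ := Countable.exists_injective_nat P
  obtain ⟨e⟩ : Nonempty (κ × κ ↪ κ) := (Cardinal.le_def _ _).1 (by simp)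
  exact ⟨_, e.injective.comp (((Infinite.natEmbedding κ).injective.comp hf).prodMap
    injective_id)⟩

theorem beta {ι : Type*} (φ : P → ι) (ω : P × κ → κ) (hω : Injective ω) :
    ∃ β : C(ι → B κ, K P κ), ∀ w (x : P → κ → ℝ),
      (∀ i j z, i ≤ j → (w (φ j)).1 (ω (i, z)) = x i z / cc j) → (β w).1 = x := by
  classical
  have hne : ∀ i : P, (univ.filter fun j => i ≤ j).Nonempty := fun i => ⟨i, by simp⟩
  let m : (ι → B κ) → P → κ → ℝ := fun w i z =>
    (univ.filter fun j => i ≤ j).inf' (hne i) fun j => cc j * |(w (φ j)).1 (ω (i, z))|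
  let b : (ι → B κ) → P → κ → ℝ := fun w i z =>
    max (-m w i z) (min (m w i z) (cc i * (w (φ i)).1 (ω (i, z))))
  have hb : ∀ w, b w ∈ K P κ := fun w => mem_K_iff.2 fun j F => by
    have a1 : ∀ i ∈ dn j, ∀ z, |b w i z| ≤ cc j * |(w (φ j)).1 (ω (i, z))| := fun i hi z => by
      have b0 : 0 ≤ m w i z := le_inf' _ _ fun k _ => mul_nonneg (cc_pos k).le (abs_nonneg _)
      have b1 : m w i z ≤ cc j * |(w (φ j)).1 (ω (i, z))| := inf'_le _ (by simpa using mem_dn.1 hi)
      exact (abs_le.2 ⟨le_max_left _ _, max_le (by linarith) (min_le_left _ _)⟩).trans b1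
    refine (sum_le_sum fun i hi => sum_le_sum fun z _ => a1 i hi z).trans ?_
    have a2 := mem_B_iff.1 (w (φ j)).2 ((dn j ×ˢ F).image ω)
    rw [sum_image fun _ _ _ _ h => hω h, sum_product] at a2
    simp only [← mul_sum]
    exact mul_le_of_le_one_right (cc_pos j).le a2
  have hm : ∀ i z, Continuous fun w => m w i z := fun i z =>
    Continuous.finset_inf'_apply _ fun j _ => continuous_const.mul (continuous_coord' _ _).abs
  refine ⟨⟨fun w => ⟨b w, hb w⟩, Continuous.subtype_mk (continuous_pi fun i => continuous_pi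
    fun z => (hm i z).neg.max ((hm i z).min (continuous_const.mul (continuous_coord' _ _)))) _⟩,
    fun w x hw => funext fun i => funext fun z => ?_⟩
  have a1 : |x i z| ≤ m w i z := le_inf' _ _ fun j hj => by
    rw [hw i j z (mem_filter.1 hj).2, abs_div, abs_of_pos (cc_pos j),
      mul_div_cancel₀ _ (cc_pos j).ne']
  show max _ (min _ _) = _
  rw [hw i i z le_rfl, mul_div_cancel₀ _ (cc_pos i).ne', min_eq_right ((le_abs_self _).trans a1),
    max_eq_right (abs_le.1 a1).1]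

theorem emb_power [Infinite κ] : Emb (K P κ) (P → B κ) := by
  obtain ⟨ω, hω⟩ := exists_omega (κ := κ) (P := P)
  obtain ⟨β, hβ⟩ := beta id ω hω
  refine emb_of_surj β fun x => ?_
  have hB : ∀ j, InB (extend ω (fun p => if p.1 ≤ j then x.1 p.1 p.2 / cc j else 0) 0) :=
    fun j F => by
      obtain ⟨G, hG⟩ := sum_extend hω F
      rw [hG]
      refine le_trans (le_of_eq ?_) ((div_le_one (cc_pos j)).2 (mem_K_iff'.1 x.2 j G))
      rw [ms, sum_div]
      refine sum_congr rfl fun p _ => ?_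
      split_ifs <;> simp [abs_div, abs_of_pos (cc_pos j)]
  refine ⟨fun j => ⟨_, mem_B_iff.2 (hB j)⟩, Subtype.ext (hβ _ _ fun i j z hij => ?_)⟩
  simp [hω.extend_apply, hij]

theorem emb_reflect [Infinite κ] (φ : P → Q) (hφ : ∀ i j, φ i ≤ φ j → i ≤ j) :
    Emb (K P κ) (K Q κ) := by
  classical
  have hi : Injective φ := fun s t h => le_antisymm (hφ s t h.le) (hφ t s h.ge)
  obtain ⟨ω, hω⟩ := exists_omega (κ := κ) (P := P)
  obtain ⟨β, hβ⟩ := beta φ ω hω
  set δ : ℝ := 1 / (Fintype.card P + 1) with hδ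
  obtain ⟨σ, Ψ, h0, h1, h2⟩ := psi (κ := κ) (Q := Q) δ (by positivity) dn fun q => subset_rfl
  have hδ1 : ∀ j : P, δ ≤ 1 / cc j := fun j =>
    one_div_le_one_div_of_le (cc_pos j) ((cc_le j).trans (by linarith))
  have h3 : ∀ q, ∑ j with φ j ≤ q ∧ φ j ≠ q, σ (φ j) ≤ δ * σ q := fun q => by
    refine le_trans ?_ (h1 q)
    rw [← sum_image fun _ _ _ _ h => hi h]
    refine sum_le_sum_of_subset_of_nonneg (fun a ha => ?_) fun a _ _ => (h0 a).le
    obtain ⟨j, hj, rfl⟩ := mem_image.1 ha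
    exact mem_erase.2 ⟨(mem_filter.1 hj).2.2, mem_dn.2 (mem_filter.1 hj).2.1⟩
  let l : P → P → ℝ := fun i j => if i ≤ j then σ (φ j) / cc j else 0
  have hl : ∀ i j, l i j ≤ σ (φ j) := fun i j => by
    simp only [l]
    split_ifs
    exacts [div_le_self (h0 _).le (one_le_cc j), (h0 _).le]
  choose μ hμ using fun i => weights (fun j' j => φ j' ≤ φ j ∧ φ j' ≠ φ j)
    (Subrelation.wf (fun h => lt_of_le_of_ne h.1 h.2) (InvImage.wf φ wellFounded_lt)) (l i)
    fun j => by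
      by_cases h : i ≤ j
      · refine (sum_le_sum fun k _ => hl i k).trans ((h3 _).trans ?_)
        simp only [l, if_pos h]
        rw [div_eq_inv_mul, ← one_div]
        exact mul_le_mul_of_nonneg_right (hδ1 j) (h0 _).le
      · simp only [l, if_neg h]
        exact (sum_eq_zero fun k hk => if_neg fun h' =>
          h (h'.trans (hφ _ _ (mem_filter.1 hk).2.1))).le
  let a : Q → P → ℝ := fun q i => ∑ j, if φ j = q then μ i j else 0
  have ha0 : ∀ q i, 0 ≤ a q i := fun q i => sum_nonneg fun j _ => by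
    split_ifs; exacts [(hμ i j).1.1, le_rfl]
  have ha : ∀ q i, ∑ q' ∈ dn q, a q' i = ∑ j with φ j ≤ q, μ i j := fun q i =>
    (sum_blocks univ φ (μ i) q).trans (sum_filter _ _).symm
  have ha1 : ∀ j i, ∑ q' ∈ dn (φ j), a q' i = l i j := fun j i => by
    rw [ha, ← (hμ i j).2, ← add_sum_erase _ _ (a := j) (by simp)]
    congr 2
    ext k
    simp [hi.eq_iff, and_comm]
  refine emb_of_surj (β.comp Ψ) fun x => ?_
  have hx := mem_K_iff'.1 x.2
  have hl2 : ∀ j (G : Finset (P × κ)), ∑ p ∈ G, l p.1 j * |x.1 p.1 p.2| ≤ σ (φ j) := fun j G => by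
    have := mul_le_mul_of_nonneg_left (hx j G) (div_pos (h0 (φ j)) (cc_pos j)).le
    rw [div_mul_cancel₀ _ (cc_pos j).ne', ms, mul_sum] at this
    refine le_trans (le_of_eq (sum_congr rfl fun p _ => ?_)) this
    simp only [l]
    split_ifs <;> simp
  obtain ⟨y, hy⟩ := h2 (fun q => extend ω (fun p => a q p.1 * x.1 p.1 p.2) 0) fun q F => by
    obtain ⟨G, hG⟩ := sum_extend hω F
    simp only [hG, abs_mul, abs_of_nonneg (ha0 _ _)]
    rw [sum_comm]
    simp only [← sum_mul]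
    by_cases hq : ∃ j, φ j = q
    · obtain ⟨j, rfl⟩ := hq
      simp only [ha1]
      exact hl2 j G
    · simp only [ha, sum_mul]
      rw [sum_comm]
      refine (sum_le_sum fun j _ => (sum_le_sum fun p _ => mul_le_mul_of_nonneg_right
        (hμ p.1 j).1.2 (abs_nonneg _)).trans (hl2 j G)).trans ?_
      have : δ ≤ 1 := by
        rw [hδ, div_le_one (by positivity)]
        linarith [Nat.cast_nonneg (α := ℝ) (Fintype.card P)]
      refine le_trans (le_of_eq (sum_congr (filter_congr fun j _ => ?_) fun _ _ => rfl))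
        ((h3 q).trans (mul_le_of_le_one_left (h0 q).le this))
      exact ⟨fun h => ⟨h, fun h' => hq ⟨j, h'⟩⟩, fun h => h.1⟩
  refine ⟨y, Subtype.ext (hβ _ _ fun i j z hij => ?_)⟩
  rw [hy]
  simp only [hω.extend_apply, ← sum_mul, ha1, l, if_pos hij]
  have := (h0 (φ j)).ne'
  field_simp

end Maps

end Pool.Agent.P.MP_b4ec01_an.Nb
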